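import Mathlib

/-! The number of primes above a given prime number in the fields of `p`-power roots of unity is
bounded. -/

set_option autoImplicit false

namespace Pool.Agent.N810.MU

open NumberField Ideal

/-- the order of `l` modulo `p ^ k` is at least a constant times `p ^ k` -/
theorem order_bound {p l : ℕ} (hp : p.Prime) (hl : l.Prime) (hne : l ≠ p) :
    ∃ t : ℕ, 0 < t ∧ ∀ k : ℕ, p ^ k ≤ t * orderOf (l : ZMod (p ^ k)) := by
  have hpf : Fact p.Prime := ⟨hp⟩
  have hcop : ¬ p ∣ l := fun h => hne ((Nat.prime_dvd_prime_iff_eq hp hl).1 h).symm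
  -- it is enough to bound the exponent
  obtain ⟨e, he⟩ : ∃ e : ℕ, ∀ k d : ℕ, 0 < d → p ^ k ∣ l ^ d - 1 → k ≤ e + padicValNat p d := by
    rcases Nat.Prime.eq_two_or_odd' hp with h2 | hodd
    · subst h2
      refine ⟨padicValNat 2 (l + 1) + padicValNat 2 (l - 1), fun k d hd h => ?_⟩
      have hl1 : 1 < l := hl.one_lt
      have h1 := padicValNat.pow_two_sub_pow (x := l) (y := 1) hl1 (by
        have : l % 2 = 1 := Nat.odd_iff.1 (hl.odd_of_ne_two hne)
        omega) hcop (n := 2 * d) (by omega) (even_two_mul d)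
      rw [one_pow, padicValNat.mul (by norm_num) (by omega), padicValNat_self] at h1
      have h3 : l ^ d - 1 ∣ l ^ (2 * d) - 1 := by
        have := Nat.sub_dvd_pow_sub_pow (l ^ d) 1 2
        rwa [one_pow, ← pow_mul, mul_comm d 2] at this
      have h4 : l ^ (2 * d) - 1 ≠ 0 := by
        have := Nat.one_lt_pow (by omega : 2 * d ≠ 0) hl1
        omega
      have h5 := (padicValNat_dvd_iff_le h4).1 (h.trans h3)
      omega
    · refine ⟨padicValNat p (l ^ (p - 1) - 1), fun k d hd h => ?_⟩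
      have hl1 : 1 < l := hl.one_lt
      have hp1 : p - 1 ≠ 0 := by have := hp.one_lt; omega
      have hx : 1 < l ^ (p - 1) := Nat.one_lt_pow hp1 hl1
      have hdvd : p ∣ l ^ (p - 1) - 1 := by
        have h1 : Nat.ModEq p (l ^ (p - 1)) 1 := by
          have h2 := Nat.ModEq.pow_totient ((Nat.coprime_primes hl hp).2 hne)
          rwa [Nat.totient_prime hp] at h2
        exact (Nat.modEq_iff_dvd' hx.le).1 h1.symm
      have h1 := padicValNat.pow_sub_pow (p := p) hodd hx hdvd (fun h => hcop (hp.dvd_of_dvd_pow h))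
        (n := d) hd.ne'
      rw [one_pow] at h1
      have h3 : l ^ d - 1 ∣ (l ^ (p - 1)) ^ d - 1 := by
        have := Nat.sub_dvd_pow_sub_pow (l ^ d) 1 (p - 1)
        rwa [one_pow, ← pow_mul, mul_comm d, pow_mul] at this
      have h4 : (l ^ (p - 1)) ^ d - 1 ≠ 0 := by
        have := Nat.one_lt_pow hd.ne' hx
        omega
      have h5 := (padicValNat_dvd_iff_le h4).1 (h.trans h3)
      omega
  refine ⟨p ^ e, pow_pos hp.pos _, fun k => ?_⟩
  have hfin : NeZero (p ^ k) := ⟨(pow_pos hp.pos k).ne'⟩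
  set d := orderOf (l : ZMod (p ^ k)) with hd
  have hunit : IsUnit (l : ZMod (p ^ k)) := by
    rw [ZMod.isUnit_iff_coprime]
    exact Nat.Coprime.pow_right _ ((Nat.coprime_primes hl hp).2 hne)
  have hd0 : 0 < d := by
    obtain ⟨u, hu⟩ := hunit
    rw [hd, ← hu, orderOf_units]
    exact orderOf_pos u
  have h1 : p ^ k ∣ l ^ d - 1 := by
    have h2 : ((l ^ d : ℕ) : ZMod (p ^ k)) = ((1 : ℕ) : ZMod (p ^ k)) := by
      push_cast
      exact pow_orderOf_eq_one _
    rw [ZMod.natCast_eq_natCast_iff] at h2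
    exact (Nat.modEq_iff_dvd' (Nat.one_le_pow _ _ hl.pos)).1 h2.symm
  have h2 := he k d hd0 h1
  calc p ^ k ≤ p ^ (e + padicValNat p d) := Nat.pow_le_pow_right hp.pos h2
    _ = p ^ e * p ^ padicValNat p d := pow_add _ _ _
    _ ≤ p ^ e * d := Nat.mul_le_mul_left _ (Nat.le_of_dvd hd0 pow_padicValNat_dvd)

/-- the number of primes above `l` -/
theorem primes_bound {p l : ℕ} (hp : p.Prime) (hl : l.Prime) :
    ∃ t : ℕ, ∀ (k : ℕ) (K : Type) [Field K] [NumberField K]
      [IsCyclotomicExtension {p ^ k} ℚ K],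
      (primesOver (span {(l : ℤ)}) (𝓞 K)).ncard ≤ t := by
  have hpf : Fact p.Prime := ⟨hp⟩
  have hlf : Fact l.Prime := ⟨hl⟩
  have hlm : (span {(l : ℤ)}).IsMaximal :=
    PrincipalIdealRing.isMaximal_of_irreducible (Nat.prime_iff_prime_int.1 hl).irreducible
  by_cases hne : l = p
  · subst hne
    refine ⟨1, fun k K _ _ hK => ?_⟩
    rcases k with _ | k
    · -- the field of rational numbers
      have hG : IsGalois ℚ K := IsCyclotomicExtension.isGalois {l ^ 0} ℚ K
      have h1 := Ideal.ncard_primesOver_mul_ramificationIdxIn_mul_inertiaDegIn (span {(l : ℤ)}) (𝓞 K)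
        Gal(K/ℚ)
      rw [IsGaloisGroup.card_eq_finrank Gal(K/ℚ) ℚ K, IsCyclotomicExtension.Rat.finrank (l ^ 0) K,
        pow_zero, Nat.totient_one] at h1
      have h2 : (primesOver (span {(l : ℤ)}) (𝓞 K)).ncard ∣ 1 := Dvd.intro _ h1
      exact Nat.le_of_dvd one_pos h2
    · exact (IsCyclotomicExtension.Rat.ncard_primesOver_of_prime_pow l k K).le
  · obtain ⟨t, ht0, ht⟩ := order_bound hp hl hne
    refine ⟨t, fun k K _ _ hK => ?_⟩
    have hfin : NeZero (p ^ k) := ⟨(pow_pos hp.pos k).ne'⟩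
    have hG : IsGalois ℚ K := IsCyclotomicExtension.isGalois {p ^ k} ℚ K
    have h1 := Ideal.ncard_primesOver_mul_ramificationIdxIn_mul_inertiaDegIn (span {(l : ℤ)}) (𝓞 K)
      Gal(K/ℚ)
    have hnd : ¬ l ∣ p ^ k := fun h => hne ((Nat.prime_dvd_prime_iff_eq hl hp).1
      (hl.dvd_of_dvd_pow h))
    rw [IsGaloisGroup.card_eq_finrank Gal(K/ℚ) ℚ K, IsCyclotomicExtension.Rat.finrank (p ^ k) K,
      IsCyclotomicExtension.Rat.inertiaDegIn_eq_of_not_dvd l K hnd,
      IsCyclotomicExtension.Rat.ramificationIdxIn_eq_of_not_dvd l K hnd, one_mul] at h1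
    have h2 := ht k
    have h3 : Nat.totient (p ^ k) ≤ p ^ k := Nat.totient_le _
    have hd0 : 0 < orderOf (l : ZMod (p ^ k)) := by
      have hunit : IsUnit (l : ZMod (p ^ k)) := by
        rw [ZMod.isUnit_iff_coprime]
        exact Nat.Coprime.pow_right _ ((Nat.coprime_primes hl hp).2 hne)
      obtain ⟨u, hu⟩ := hunit
      rw [← hu, orderOf_units]
      exact orderOf_pos u
    rw [← h1] at h3
    exact Nat.le_of_mul_le_mul_right (h3.trans h2) hd0

end Pool.Agent.N810.MU
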