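import Pool.Agent.H639R3.Z.Gal
import Pool.Agent.Q60.MU.Fields
import Pool.Agent.N810.MU.Cyc

/-! The subfields of `ℚ(μ_{p^∞})`: they are normal, and every prime number has a bounded number of
primes above it in them. -/

set_option autoImplicit false

namespace Pool.Agent.N810.MU

open NumberField Pool.Agent.Q60.MU
open scoped Pointwise

/-- `ℚ(μ_{p^∞})`, the field generated by all roots of unity of order a power of `p` -/
noncomputable def Cyc (p : ℕ) : IntermediateField ℚ Qb := IntermediateField.adjoin ℚ {z | ∃ k : ℕ, z ^ (p ^ k) = 1}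

/-- `ℚ(μ_{p^k})` -/
noncomputable def cyk (p k : ℕ) : IntermediateField ℚ Qb :=
  IntermediateField.adjoin ℚ {b | ∃ n ∈ ({p ^ k} : Set ℕ), n ≠ 0 ∧ b ^ n = 1}

theorem mem_cyk {p k : ℕ} (hp : p.Prime) {z : Qb} (hz : z ^ (p ^ k) = 1) : z ∈ cyk p k :=
  IntermediateField.subset_adjoin _ _ ⟨p ^ k, rfl, (pow_pos hp.pos k).ne', hz⟩

theorem cyk_mono {p : ℕ} (hp : p.Prime) : Monotone (cyk p) := by
  intro i j hij
  refine IntermediateField.adjoin_le_iff.2 ?_
  rintro z ⟨n, hn, -, hz⟩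
  rw [Set.mem_singleton_iff] at hn
  subst hn
  refine mem_cyk hp ?_
  obtain ⟨c, rfl⟩ := Nat.exists_eq_add_of_le hij
  rw [pow_add, pow_mul, hz, one_pow]

theorem le_cyk {p : ℕ} (hp : p.Prime) (E : IntermediateField ℚ Qb) [FiniteDimensional ℚ E]
    (h : E ≤ Cyc p) : ∃ k, E ≤ cyk p k := by
  have h1 : Cyc p ≤ ⨆ k, cyk p k := by
    refine IntermediateField.adjoin_le_iff.2 ?_
    rintro z ⟨k, hz⟩
    exact (le_iSup (cyk p) k) (mem_cyk hp hz)
  obtain ⟨α, hα⟩ := Field.exists_primitive_element ℚ E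
  have h2 : (α : Qb) ∈ ⨆ k, cyk p k := h1 (h α.2)
  have h3 : (α : Qb) ∈ ((⨆ k, cyk p k : IntermediateField ℚ Qb) : Set Qb) := h2
  rw [IntermediateField.coe_iSup_of_directed (cyk_mono hp).directed_le, Set.mem_iUnion] at h3
  obtain ⟨k, hk⟩ := h3
  refine ⟨k, fun x hx => ?_⟩
  have h4 : (⟨x, hx⟩ : E) ∈ IntermediateField.adjoin ℚ {α} := by
    rw [hα]
    exact IntermediateField.mem_top
  obtain ⟨r, s, hrs⟩ := (IntermediateField.mem_adjoin_simple_iff ℚ _).1 h4
  have h5 : x = Polynomial.aeval (α : Qb) r / Polynomial.aeval (α : Qb) s := by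
    have h6 := congrArg E.val hrs
    rw [map_div₀, ← Polynomial.aeval_algHom_apply, ← Polynomial.aeval_algHom_apply] at h6
    exact h6
  have h6 : ∀ q : Polynomial ℚ, Polynomial.aeval (α : Qb) q ∈ cyk p k := by
    intro q
    have h7 := Polynomial.aeval_algHom_apply (cyk p k).val ⟨(α : Qb), hk⟩ q
    have h8 : (cyk p k).val ⟨(α : Qb), hk⟩ = (α : Qb) := rfl
    rw [h8] at h7
    rw [h7]
    exact (Polynomial.aeval (⟨(α : Qb), hk⟩ : cyk p k) q).2
  rw [h5]
  exact div_mem (h6 r) (h6 s)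

/-- automorphisms commute on `ℚ(μ_{p^∞})` -/
theorem comm_cyc {p : ℕ} (hp : p.Prime) (σ τ : Gal(Qb/ℚ)) : ∀ x ∈ Cyc p, σ (τ x) = τ (σ x) := by
  have key : ∀ z : Qb, (∃ k : ℕ, z ^ (p ^ k) = 1) → ∀ σ : Gal(Qb/ℚ), ∃ i : ℕ, σ z = z ^ i := by
    rintro z ⟨k, hz⟩ σ
    have hne : NeZero (p ^ k) := ⟨(pow_pos hp.pos k).ne'⟩
    obtain ⟨n, hn⟩ : ∃ n, n = orderOf z := ⟨_, rfl⟩
    have hpr : IsPrimitiveRoot z n := by rw [hn]; exact IsPrimitiveRoot.orderOf z
    have hn0 : NeZero n := ⟨by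
      intro h
      have h1 : n ∣ p ^ k := hpr.dvd_of_pow_eq_one _ hz
      rw [h, zero_dvd_iff] at h1
      exact hne.out h1⟩
    obtain ⟨i, -, hi⟩ := hpr.eq_pow_of_pow_eq_one (ξ := σ z) (by
      rw [← map_pow, hpr.pow_eq_one, map_one])
    exact ⟨i, hi.symm⟩
  intro x hx
  induction hx using IntermediateField.adjoin_induction with
  | mem z hz =>
    obtain ⟨i, hi⟩ := key z hz σ
    obtain ⟨j, hj⟩ := key z hz τ
    rw [hi, hj, map_pow, map_pow, hi, hj, ← pow_mul, ← pow_mul, mul_comm]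
  | algebraMap q => rw [AlgEquiv.commutes, AlgEquiv.commutes, AlgEquiv.commutes]
  | add x y _ _ hx hy => rw [map_add, map_add, map_add, map_add, hx, hy]
  | inv x _ hx => rw [map_inv₀, map_inv₀, map_inv₀, map_inv₀, hx]
  | mul x y _ _ hx hy => rw [map_mul, map_mul, map_mul, map_mul, hx, hy]

/-- finite subextensions of `ℚ(μ_{p^∞})` are Galois -/
theorem galois_of_le {p : ℕ} (hp : p.Prime) (E : IntermediateField ℚ Qb) (h : E ≤ Cyc p) :
    IsGalois ℚ E := by
  refine (InfiniteGalois.normal_iff_isGalois E).1 ⟨fun n hn g => ?_⟩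
  rw [IntermediateField.mem_fixingSubgroup_iff] at hn ⊢
  intro x hx
  rw [AlgEquiv.mul_apply, AlgEquiv.mul_apply, ← comm_cyc hp g⁻¹ n x (h hx), hn x hx,
    ← AlgEquiv.mul_apply, mul_inv_cancel, AlgEquiv.one_apply]

section

variable (E : IntermediateField ℚ Qb)

theorem int_mem (A : ValuationSubring Qb) (a : 𝓞 E) : algebraMap (𝓞 E) E a ∈
    A.comap (algebraMap E Qb) := by
  rw [ValuationSubring.mem_comap]
  exact integral_mem A ((isIntegral_algebraMap_iff (algebraMap E Qb).injective).2 a.2)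

/-- the prime ideal of `E` below a valuation ring -/
noncomputable def ctr (A : ValuationSubring Qb) : Ideal (𝓞 E) :=
  H639R3.cent (A.comap (algebraMap E Qb)) (int_mem E A)

theorem ctr_prime (A : ValuationSubring Qb) : (ctr E A).IsPrime := H639R3.cent_isPrime _ _

theorem comap_ne_top {l : ℕ} (hl : l.Prime) {A : ValuationSubring Qb} (hA : (l : Qb) ∈ A.nonunits) :
    A.comap (algebraMap E Qb) ≠ ⊤ := by
  intro h
  have h1 : ((l : E)⁻¹) ∈ A.comap (algebraMap E Qb) := by rw [h]; trivial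
  rw [ValuationSubring.mem_comap, map_inv₀, map_natCast] at h1
  rcases (ValuationSubring.mem_nonunits_iff_or A).1 hA with h2 | h2
  · exact hl.ne_zero (by exact_mod_cast h2)
  · exact h2 h1

theorem ctr_mem {l : ℕ} {A : ValuationSubring Qb} (hA : (l : Qb) ∈ A.nonunits) :
    ((l : ℕ) : 𝓞 E) ∈ ctr E A := by
  rw [ctr, H639R3.mem_cent, H639R3.comap_val_lt_one, map_natCast, map_natCast]
  exact (ValuationSubring.mem_nonunits_iff A).1 hA

/-- valuation rings over the same prime ideal are conjugate -/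
theorem conj_of_ctr [NumberField E] {A B : ValuationSubring Qb} {l : ℕ} (hl : l.Prime)
    (hA : (l : Qb) ∈ A.nonunits) (hB : (l : Qb) ∈ B.nonunits) (h : ctr E A = ctr E B) :
    ∃ σ ∈ E.fixingSubgroup, A = σ • B := by
  have h1 : B.comap (algebraMap E Qb) = A.comap (algebraMap E Qb) :=
    H639R3.eq_of_cent_eq _ _ (int_mem E B) (int_mem E A) (comap_ne_top E hl hB)
      (comap_ne_top E hl hA) h.symm
  have hG : IsGalois E Qb := by
    have := isGalois_Qb
    infer_instance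
  obtain ⟨σ, hσ⟩ := H639R3.exists_aut (A := 𝓞 E) B A (fun a => int_mem E B a)
    (comap_ne_top E hl hB) h1
  have hinv : (σ.restrictScalars ℚ) ∈ E.fixingSubgroup := by
    rw [IntermediateField.mem_fixingSubgroup_iff]
    intro x hx
    exact σ.commutes ⟨x, hx⟩
  refine ⟨(σ.restrictScalars ℚ)⁻¹, inv_mem hinv, ?_⟩
  ext a
  rw [ValuationSubring.mem_pointwise_smul_iff_inv_smul_mem, inv_inv]
  exact hσ a

end

/-- **Bounded decomposition.** -/
theorem dec_bound {p l : ℕ} (hp : p.Prime) (hl : l.Prime) :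
    ∃ t : ℕ, ∀ E : IntermediateField ℚ Qb, FiniteDimensional ℚ E → E ≤ Cyc p →
      ∃ T : Finset (ValuationSubring Qb), T.card ≤ t ∧
        ∀ A : ValuationSubring Qb, (l : Qb) ∈ A.nonunits →
          ∃ B ∈ T, ∃ σ ∈ E.fixingSubgroup, A = σ • B := by
  classical
  obtain ⟨t, ht⟩ := primes_bound hp hl
  refine ⟨t, fun E hE hEc => ?_⟩
  obtain ⟨k, hk⟩ := le_cyk hp E hEc
  have hne : NeZero (p ^ k) := ⟨(pow_pos hp.pos k).ne'⟩
  have hcyc : IsCyclotomicExtension {p ^ k} ℚ (cyk p k) := by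
    have h1 := IntermediateField.isCyclotomicExtension_adjoin_of_exists_isPrimitiveRoot {p ^ k} ℚ
      Qb (by
        rintro n hn hn0
        have : NeZero n := ⟨hn0⟩
        exact HasEnoughRootsOfUnity.exists_primitiveRoot Qb n)
    exact h1
  have hnf : NumberField (cyk p k) := IsCyclotomicExtension.numberField {p ^ k} ℚ (cyk p k)
  have h2 := ht k (cyk p k)
  set P₀ : Ideal ℤ := Ideal.span {(l : ℤ)} with hP₀
  have hlm : P₀.IsMaximal :=
    PrincipalIdealRing.isMaximal_of_irreducible (Nat.prime_iff_prime_int.1 hl).irreducible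
  have hfin : (Ideal.primesOver P₀ (𝓞 (cyk p k))).Finite := IsDedekindDomain.primesOver_finite P₀ _
  let f : Ideal (𝓞 (cyk p k)) → ValuationSubring Qb := fun P =>
    if h : ∃ A : ValuationSubring Qb, (l : Qb) ∈ A.nonunits ∧ ctr (cyk p k) A = P then h.choose
    else ⊤
  refine ⟨hfin.toFinset.image f, ?_, fun A hA => ?_⟩
  · refine Finset.card_image_le.trans ?_
    rw [← Set.ncard_eq_toFinset_card _ hfin]
    exact h2
  · have hPr := ctr_prime (cyk p k) A
    have hmem : ctr (cyk p k) A ∈ Ideal.primesOver P₀ (𝓞 (cyk p k)) := by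
      refine ⟨hPr, ?_⟩
      refine (Ideal.liesOver_span_iff hPr.ne_top (Nat.prime_iff_prime_int.1 hl)).mpr ?_
      have := ctr_mem (cyk p k) hA
      simpa using this
    have hex : ∃ A' : ValuationSubring Qb, (l : Qb) ∈ A'.nonunits ∧
        ctr (cyk p k) A' = ctr (cyk p k) A := ⟨A, hA, rfl⟩
    have hf : f (ctr (cyk p k) A) = hex.choose := dif_pos hex
    refine ⟨f (ctr (cyk p k) A), Finset.mem_image_of_mem _ (hfin.mem_toFinset.2 hmem), ?_⟩
    rw [hf]
    obtain ⟨σ, hσ, h3⟩ := conj_of_ctr (cyk p k) hl hA hex.choose_spec.1 hex.choose_spec.2.symm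
    exact ⟨σ, IntermediateField.fixingSubgroup_le hk hσ, h3⟩

end Pool.Agent.N810.MU
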