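import Pool.Agent.N810.MU.Dec

/-! Detection of `μ = 0` by simple modules, for class groups with local conditions in the cyclotomic
`ℤ_p`-extension. -/

set_option autoImplicit false

namespace Pool.Agent.N810.MU

open NumberField Pool.Agent.Q60.MU Module Subgroup
open scoped Pointwise commutatorElement

/-- `J` assigns to each valuation ring of `ℚ̄` a subgroup of `Gal(ℚ̄/ℚ)`, compatibly with conjugation,
which is contained in the inertia group except above finitely many prime numbers. -/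
structure LocalCond (J : ValuationSubring Qb → Subgroup Gal(Qb/ℚ)) : Prop where
  conj : ∀ (g : Gal(Qb/ℚ)) (A : ValuationSubring Qb), ∀ σ ∈ J A, g * σ * g⁻¹ ∈ J (g • A)
  almost : ∃ c : ℕ, c ≠ 0 ∧ ∀ A : ValuationSubring Qb, (c : Qb) ∉ A.nonunits → J A ≤ inertia A

/-- Every finite extension `M` of `E` which is Galois over `E` with abelian Galois group of
exponent `p`, and such that the elements of the groups `J A` which fix `E` act trivially on `M`, has
degree at most `C` over `E`. -/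
def DegLeJ (J : ValuationSubring Qb → Subgroup Gal(Qb/ℚ)) (p : ℕ) (E : IntermediateField ℚ Qb)
    (C : ℕ) : Prop :=
  ∀ M : IntermediateField ℚ Qb, E ≤ M → FiniteDimensional ℚ M →
    (∀ σ ∈ E.fixingSubgroup, ∀ x ∈ M, σ x ∈ M) →
    (∀ σ ∈ E.fixingSubgroup, ∀ τ ∈ E.fixingSubgroup, ∀ x ∈ M, σ (τ x) = τ (σ x)) →
    (∀ σ ∈ E.fixingSubgroup, ∀ x ∈ M, (σ ^ p) x = x) →
    (∀ A, ∀ σ ∈ J A, σ ∈ E.fixingSubgroup → ∀ x ∈ M, σ x = x) →
    finrank ℚ M ≤ C * finrank ℚ E

theorem rankLe_iffJ {J : ValuationSubring Qb → Subgroup Gal(Qb/ℚ)} {p : ℕ}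
    (E : IntermediateField ℚ Qb) [FiniteDimensional ℚ E] (C : ℕ) :
    RankLe p J E.fixingSubgroup C ↔ DegLeJ J p E C := by
  have hK0 := index_ne_zero' E
  constructor
  · intro h M hEM hM h1 h2 h3 h4
    have hWK : M.fixingSubgroup ≤ E.fixingSubgroup := IntermediateField.fixingSubgroup_le hEM
    have hmul := relIndex_mul_index hWK
    have hW0 := index_ne_zero' M
    have h5 := h M.fixingSubgroup hWK M.fixingSubgroup_isOpen (by
      intro h0
      rw [h0, zero_mul] at hmul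
      exact hW0 hmul.symm) (by
      rintro x ((⟨a, ha, rfl⟩ | ⟨a, ha, b, hb, rfl⟩) | ⟨hx, w, hw⟩)
      · exact (IntermediateField.mem_fixingSubgroup_iff _ _).2 fun x hx => h3 a ha x hx
      · refine (IntermediateField.mem_fixingSubgroup_iff _ _).2 fun x hx => ?_
        have hb' : b⁻¹ x ∈ M := h1 _ (inv_mem hb) x hx
        have ha' : a⁻¹ (b⁻¹ x) ∈ M := h1 _ (inv_mem ha) _ hb'
        have h6 := h2 a ha b hb _ ha'
        show ⁅a, b⁆ x = x
        have h7 : ⁅a, b⁆ x = a (b (a⁻¹ (b⁻¹ x))) := rfl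
        have h8 : a (a⁻¹ (b⁻¹ x)) = b⁻¹ x := by
          rw [← AlgEquiv.mul_apply, mul_inv_cancel, AlgEquiv.one_apply]
        have h9 : b (b⁻¹ x) = x := by
          rw [← AlgEquiv.mul_apply, mul_inv_cancel, AlgEquiv.one_apply]
        rw [h7, h6, h8, h9]
      · exact (IntermediateField.mem_fixingSubgroup_iff _ _).2 fun y hy => h4 w x hw hx y hy)
    rw [IntermediateField.finrank_eq_fixingSubgroup_index,
      IntermediateField.finrank_eq_fixingSubgroup_index, ← hmul]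
    exact Nat.mul_le_mul_right _ h5
  · intro h W hWK hWo hWf hg
    have hmul := relIndex_mul_index hWK
    have hW0 : W.index ≠ 0 := by
      rw [← hmul]
      exact mul_ne_zero hWf hK0
    have hfix := fix_fixed hWo
    have hEM : E ≤ IntermediateField.fixedField W := (IntermediateField.le_iff_le _ _).2 hWK
    have hfd := finite_fixed hWo hW0
    have hmem : ∀ x, x ∈ IntermediateField.fixedField W ↔ ∀ w ∈ W, w x = x :=
      fun x => IntermediateField.mem_fixedField_iff _ _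
    have h5 := h (IntermediateField.fixedField W) hEM hfd (by
      intro σ hσ x hx
      rw [hmem] at hx ⊢
      intro w hw
      have h1 : ⁅σ⁻¹, w⁆ ∈ W := hg (Or.inl (Or.inr ⟨σ⁻¹, inv_mem hσ, w, hWK hw, rfl⟩))
      have h2 : w (σ x) = σ ((⁅σ⁻¹, w⁆ * w) x) := by
        rw [← AlgEquiv.mul_apply, ← AlgEquiv.mul_apply]
        congr 1
        rw [commutatorElement_def]
        group
      rw [h2, hx _ (W.mul_mem h1 hw)]) (by
      intro σ hσ τ hτ x hx
      rw [hmem] at hx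
      have h1 : ⁅σ⁻¹, τ⁻¹⁆ ∈ W := hg (Or.inl (Or.inr ⟨σ⁻¹, inv_mem hσ, τ⁻¹, inv_mem hτ, rfl⟩))
      have h2 : σ (τ x) = τ (σ (⁅σ⁻¹, τ⁻¹⁆ x)) := by
        rw [← AlgEquiv.mul_apply, ← AlgEquiv.mul_apply, ← AlgEquiv.mul_apply]
        congr 1
        rw [commutatorElement_def]
        group
      rw [h2, hx _ h1]) (by
      intro σ hσ x hx
      rw [hmem] at hx
      exact hx _ (hg (Or.inl (Or.inl ⟨σ, hσ, rfl⟩)))) (by
      intro A σ hσA hσ x hx
      rw [hmem] at hx
      exact hx _ (hg (Or.inr ⟨hσ, A, hσA⟩)))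
    rw [IntermediateField.finrank_eq_fixingSubgroup_index,
      IntermediateField.finrank_eq_fixingSubgroup_index, hfix, ← hmul] at h5
    exact Nat.le_of_mul_le_mul_right h5 (Nat.pos_of_ne_zero hK0)

/-- `E` is one of the fields `ℚ = ℚ_0 ⊂ ℚ_1 ⊂ ...` of degrees `1, p, p^2, ...` in the cyclotomic
`ℤ_p`-extension of `ℚ`: a real subfield of `ℚ(μ_{p^∞})` of degree a power of `p`. -/
def Layer (p : ℕ) (E : IntermediateField ℚ Qb) : Prop :=
  E ≤ Cyc p ∧ (∃ m : ℕ, finrank ℚ E = p ^ m) ∧ Nonempty (E →+* ℝ)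

/-- the degrees in the fields `F ℚ_0, F ℚ_1, ...` are bounded -/
def MuZ (J : ValuationSubring Qb → Subgroup Gal(Qb/ℚ)) (p : ℕ) (F : IntermediateField ℚ Qb) : Prop :=
  ∃ C, ∀ E, Layer p E → DegLeJ J p (F ⊔ E) C

theorem Layer.finite {p : ℕ} (hp : p.Prime) {E : IntermediateField ℚ Qb} (h : Layer p E) :
    FiniteDimensional ℚ E := by
  obtain ⟨m, hm⟩ := h.2.1
  apply FiniteDimensional.of_finrank_pos
  rw [hm]
  exact pow_pos hp.pos m

theorem layer_bot (p : ℕ) : Layer p ⊥ := by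
  refine ⟨bot_le, ⟨0, ?_⟩, ⟨?_⟩⟩
  · rw [pow_zero]
    exact IntermediateField.finrank_bot
  · exact (algebraMap ℚ ℝ).comp
      ((IntermediateField.botEquiv ℚ Qb).toAlgHom.toRingHom)

theorem countable_Qb : Countable Qb := by
  have h := Algebra.IsAlgebraic.cardinalMk_le_max ℚ Qb
  rw [← Cardinal.mk_le_aleph0_iff]
  refine h.trans ?_
  rw [max_le_iff]
  exact ⟨Cardinal.mk_le_aleph0, le_refl _⟩

theorem exists_gen (E : IntermediateField ℚ Qb) [FiniteDimensional ℚ E] :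
    ∃ α ∈ E, ∀ L : IntermediateField ℚ Qb, α ∈ L → E ≤ L := by
  obtain ⟨α, hα⟩ := Field.exists_primitive_element ℚ E
  refine ⟨α, α.2, fun L hk x hx => ?_⟩
  have h4 : (⟨x, hx⟩ : E) ∈ IntermediateField.adjoin ℚ {α} := by
    rw [hα]
    exact IntermediateField.mem_top
  obtain ⟨r, s, hrs⟩ := (IntermediateField.mem_adjoin_simple_iff ℚ _).1 h4
  have h5 : x = Polynomial.aeval (α : Qb) r / Polynomial.aeval (α : Qb) s := by
    have h6 := congrArg E.val hrs
    rw [map_div₀, ← Polynomial.aeval_algHom_apply, ← Polynomial.aeval_algHom_apply] at h6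
    exact h6
  have h6 : ∀ q : Polynomial ℚ, Polynomial.aeval (α : Qb) q ∈ L := by
    intro q
    have h7 := Polynomial.aeval_algHom_apply L.val ⟨(α : Qb), hk⟩ q
    have h8 : L.val ⟨(α : Qb), hk⟩ = (α : Qb) := rfl
    rw [h8] at h7
    rw [h7]
    exact (Polynomial.aeval (⟨(α : Qb), hk⟩ : L) q).2
  rw [h5]
  exact div_mem (h6 r) (h6 s)

/-- the layers can be enumerated -/
theorem exists_enum (p : ℕ) (hp : p.Prime) :
    ∃ R : ℕ → IntermediateField ℚ Qb, (∀ m, Layer p (R m)) ∧ ∀ E, Layer p E → ∃ m, R m = E := by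
  have hc := countable_Qb
  have h1 : {E : IntermediateField ℚ Qb | Layer p E}.Countable := by
    refine (Set.countable_range (fun α : Qb => IntermediateField.adjoin ℚ {α})).mono ?_
    intro E hE
    have hfd := Layer.finite hp hE
    obtain ⟨α, hα, h⟩ := exists_gen E
    refine ⟨α, le_antisymm ?_ (h _ (IntermediateField.mem_adjoin_simple_self ℚ α))⟩
    exact IntermediateField.adjoin_simple_le_iff.2 hα
  obtain ⟨R, hR⟩ := h1.exists_eq_range ⟨⊥, layer_bot p⟩
  refine ⟨R, fun m => ?_, fun E hE => ?_⟩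
  · have : R m ∈ {E : IntermediateField ℚ Qb | Layer p E} := by rw [hR]; exact ⟨m, rfl⟩
    exact this
  · have : E ∈ Set.range R := by rw [← hR]; exact hE
    exact this

theorem mu_iffJ {J : ValuationSubring Qb → Subgroup Gal(Qb/ℚ)} {p : ℕ} (hp : p.Prime)
    {R : ℕ → IntermediateField ℚ Qb} (hR : ∀ m, Layer p (R m)) (hR' : ∀ E, Layer p E → ∃ m, R m = E)
    (F : IntermediateField ℚ Qb) [FiniteDimensional ℚ F] :
    Mu0 p J (fun m => (R m).fixingSubgroup) F.fixingSubgroup ↔ MuZ J p F := by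
  have h1 : ∀ C, (∀ m, RankLe p J (F.fixingSubgroup ⊓ (R m).fixingSubgroup) C) ↔
      ∀ E, Layer p E → DegLeJ J p (F ⊔ E) C := by
    intro C
    constructor
    · intro h E hE
      obtain ⟨m, rfl⟩ := hR' E hE
      have := (hR m).finite hp
      rw [← rankLe_iffJ, IntermediateField.fixingSubgroup_sup]
      exact h m
    · intro h m
      have := (hR m).finite hp
      have h2 := h _ (hR m)
      rwa [← rankLe_iffJ, IntermediateField.fixingSubgroup_sup] at h2
  exact exists_congr h1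

/-- only boundedly many classes of places matter -/
theorem bad_places {J : ValuationSubring Qb → Subgroup Gal(Qb/ℚ)} (hJ : LocalCond J) {p : ℕ}
    (hp : p.Prime) {R : ℕ → IntermediateField ℚ Qb} (hR : ∀ m, Layer p (R m))
    {K : Subgroup Gal(Qb/ℚ)} (hKo : IsOpen (K : Set Gal(Qb/ℚ))) (hKf : K.index ≠ 0) :
    ∃ t, ∀ m, ∃ T : Finset (ValuationSubring Qb), T.card ≤ t ∧
        ∀ w, J w ⊓ (R m).fixingSubgroup ≤ K ∨
          ∃ u ∈ T, ∃ d ∈ (R m).fixingSubgroup, w = d • u := by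
  classical
  have hfd := finite_fixed hKo hKf
  have hfix := fix_fixed hKo
  obtain ⟨c, hc0, hc⟩ := exists_bad (IntermediateField.fixedField K)
  obtain ⟨c', hc0', hc'⟩ := hJ.almost
  rw [hfix] at hc
  have hd : ∀ ℓ : ℕ, ℓ.Prime → ∃ t, ∀ m, ∃ T : Finset (ValuationSubring Qb), T.card ≤ t ∧
      ∀ A : ValuationSubring Qb, (ℓ : Qb) ∈ A.nonunits →
        ∃ B ∈ T, ∃ σ ∈ (R m).fixingSubgroup, A = σ • B := by
    intro ℓ hℓ
    obtain ⟨t, ht⟩ := dec_bound hp hℓ
    exact ⟨t, fun m => ht (R m) ((hR m).finite hp) (hR m).1⟩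
  choose! t T hTt hT using hd
  have hcc : c * c' ≠ 0 := mul_ne_zero hc0 hc0'
  refine ⟨∑ ℓ ∈ (c * c').primeFactors, t ℓ, fun m =>
    ⟨(c * c').primeFactors.biUnion fun ℓ => T ℓ m, ?_, ?_⟩⟩
  · refine Finset.card_biUnion_le.trans (Finset.sum_le_sum fun ℓ hℓ => ?_)
    exact hTt ℓ (Nat.prime_of_mem_primeFactors hℓ) m
  · intro A
    by_cases h : J A ≤ K
    · exact Or.inl (inf_le_left.trans h)
    · right
      have hbad : ((c * c' : ℕ) : Qb) ∈ A.nonunits := by
        by_cases h1 : (c' : Qb) ∈ A.nonunits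
        · rw [Nat.cast_mul, mul_comm]
          exact mul_nonunits h1 (natCast_mem A c)
        · obtain ⟨σ, hσ, hσK⟩ := SetLike.not_le_iff_exists.1 h
          rw [Nat.cast_mul]
          exact mul_nonunits (hc A σ (hc' A h1 hσ) hσK) (natCast_mem A c')
      obtain ⟨ℓ, hℓ, hℓA⟩ := exists_prime hcc hbad
      obtain ⟨B, hB, σ', hσ', h3⟩ := hT ℓ (Nat.prime_of_mem_primeFactors hℓ) m A hℓA
      exact ⟨B, Finset.mem_biUnion.2 ⟨ℓ, hℓ, hB⟩, σ', hσ', h3⟩

/-- **Detection.** -/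
theorem detect {J : ValuationSubring Qb → Subgroup Gal(Qb/ℚ)} (hJ : LocalCond J) {p : ℕ}
    (hp : p.Prime) (N : IntermediateField ℚ Qb) (hN : FiniteDimensional ℚ N) (hNn : IsGalois ℚ N)
    (𝓔 : Set (IntermediateField ℚ Qb)) (h𝓔 : ∀ E ∈ 𝓔, E ≤ N)
    (hdet : ∀ (S : Type) [AddCommGroup S] [Module (ZMod p) S] [Module.Finite (ZMod p) S]
      (τ : Representation (ZMod p) Gal(Qb/ℚ) S), (∀ g ∈ N.fixingSubgroup, ∀ x, τ g x = x) →
      (haveI : Fact p.Prime := ⟨hp⟩; IsSimple τ) →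
      ∃ E ∈ 𝓔, ∃ v : S, v ≠ 0 ∧ ∀ g ∈ E.fixingSubgroup, τ g v = v)
    (hmu : ∀ E ∈ 𝓔, MuZ J p E) (F : IntermediateField ℚ Qb) (hF : F ≤ N) :
    MuZ J p F := by
  have hpf : Fact p.Prime := ⟨hp⟩
  obtain ⟨R, hR, hR'⟩ := exists_enum p hp
  have hfd : ∀ E : IntermediateField ℚ Qb, E ≤ N → FiniteDimensional ℚ E := fun E hE =>
    Submodule.finiteDimensional_of_le (S₁ := Subalgebra.toSubmodule E.toSubalgebra)
      (S₂ := Subalgebra.toSubmodule N.toSubalgebra) hE
  have hFd := hfd F hF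
  rw [← mu_iffJ hp hR hR']
  have hKn : N.fixingSubgroup.Normal := (InfiniteGalois.normal_iff_isGalois N).2 hNn
  have hKo := N.fixingSubgroup_isOpen
  have hDo : ∀ m, IsOpen ((R m).fixingSubgroup : Set Gal(Qb/ℚ)) := fun m => by
    have := (hR m).finite hp
    exact (R m).fixingSubgroup_isOpen
  refine Mu0.of_le hDo hKn (IntermediateField.fixingSubgroup_le hF) hKo (index_ne_zero' N) ?_
  refine reduction (p := p) (I := J) hJ.conj
    (fun m => (InfiniteGalois.normal_iff_isGalois (R m)).2 (galois_of_le hp _ (hR m).1)) hDo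
    (fun m => by
      have := (hR m).finite hp
      exact index_ne_zero' (R m)) hKn hKo (index_ne_zero' N)
    (bad_places hJ hp hR hKo (index_ne_zero' N)) ?_
  intro S _ _ _ τ hτ hs
  obtain ⟨E, hE, v, hv, hfix⟩ := hdet S τ hτ hs
  have hEd := hfd E (h𝓔 E hE)
  exact ⟨E.fixingSubgroup, ⟨IntermediateField.fixingSubgroup_le (h𝓔 E hE),
    (mu_iffJ hp hR hR' E).2 (hmu E hE)⟩, v, hv, hfix⟩

/-- subfields -/
theorem mu_of_le {J : ValuationSubring Qb → Subgroup Gal(Qb/ℚ)} {p : ℕ}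
    (hp : p.Prime) (N : IntermediateField ℚ Qb) (hN : FiniteDimensional ℚ N) (hNn : IsGalois ℚ N)
    (h : MuZ J p N) (F : IntermediateField ℚ Qb) (hF : F ≤ N) : MuZ J p F := by
  obtain ⟨R, hR, hR'⟩ := exists_enum p hp
  have hFd : FiniteDimensional ℚ F :=
    Submodule.finiteDimensional_of_le (S₁ := Subalgebra.toSubmodule F.toSubalgebra)
      (S₂ := Subalgebra.toSubmodule N.toSubalgebra) hF
  rw [← mu_iffJ hp hR hR'] at h ⊢
  have hKn : N.fixingSubgroup.Normal := (InfiniteGalois.normal_iff_isGalois N).2 hNn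
  refine Mu0.of_le (fun m => ?_) hKn (IntermediateField.fixingSubgroup_le hF)
    N.fixingSubgroup_isOpen (index_ne_zero' N) h
  have := (hR m).finite hp
  exact (R m).fixingSubgroup_isOpen

end Pool.Agent.N810.MU
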