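import Pool.Agent.N810.MU.RealCM

/-! Abelian extensions of imaginary quadratic fields. -/

set_option autoImplicit false

namespace Pool.Agent.N810.MU.ImQ

open Module Pool.Agent.N810.MU Pool.Agent.Q60.MU
open scoped Pointwise

/-- the algebraic numbers -/
abbrev Qbar := AlgebraicClosure ℚ

/-- `K / k` is finite and Galois with abelian Galois group. -/
def AbelianOver (k K : IntermediateField ℚ Qbar) : Prop :=
  FiniteDimensional ℚ K ∧ k ≤ K ∧ (∀ σ ∈ k.fixingSubgroup, ∀ x ∈ K, σ x ∈ K) ∧
    ∀ σ ∈ k.fixingSubgroup, ∀ τ ∈ k.fixingSubgroup, ∀ x ∈ K, σ (τ x) = τ (σ x)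

/-- `c` is the complex conjugation of an embedding of `ℚ̄` in `ℂ`. -/
def ComplexConj (c : Gal(Qbar/ℚ)) : Prop :=
  ∃ ι : Qbar →+* ℂ, ∀ x, ι (c x) = (starRingEnd ℂ) (ι x)

/-- `F` is the subfield of `K` fixed by `c`, that is, `K ∩ ℝ`. -/
def IsFixed (c : Gal(Qbar/ℚ)) (K F : IntermediateField ℚ Qbar) : Prop :=
  ∀ x, x ∈ F ↔ x ∈ K ∧ c x = x

/-- `F` is the largest subfield of `K` which is abelian over `ℚ`. -/
def IsAbelianPart (K F : IntermediateField ℚ Qbar) : Prop :=
  ∀ x, x ∈ F ↔ x ∈ K ∧ ∀ g h : Gal(Qbar/ℚ), g (h x) = h (g x)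


theorem localCond : LocalCond inertia :=
  ⟨fun g A σ hσ => inertia_conj g A σ hσ, 1, one_ne_zero, fun _ _ => le_rfl⟩

theorem conj_conj {c : Gal(Qbar/ℚ)} (hc : ComplexConj c) (x : Qbar) : c (c x) = x := by
  obtain ⟨ι, h⟩ := hc
  apply ι.injective
  rw [h, h, Complex.conj_conj]

/-- two elements which do not fix `k` differ by an element which does -/
theorem quad {k : IntermediateField ℚ Qbar} (hk : finrank ℚ k = 2) :
    k.fixingSubgroup.Normal ∧ ∀ g h : Gal(Qbar/ℚ), g ∉ k.fixingSubgroup → h ∉ k.fixingSubgroup →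
      g⁻¹ * h ∈ k.fixingSubgroup := by
  have h1 : k.fixingSubgroup.index = 2 := by
    rw [← IntermediateField.finrank_eq_fixingSubgroup_index, hk]
  refine ⟨Subgroup.normal_of_index_eq_two h1, fun g h hg hh => ?_⟩
  have h2 := Subgroup.mul_mem_iff_of_index_two h1 (a := g⁻¹) (b := h)
  rw [inv_mem_iff] at h2
  exact h2.2 (iff_of_false hg hh)

theorem not_fix {k : IntermediateField ℚ Qbar} (hi : IsEmpty (k →+* ℝ)) {c : Gal(Qbar/ℚ)}
    (hc : ComplexConj c) : c ∉ k.fixingSubgroup := by
  intro h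
  rw [IntermediateField.mem_fixingSubgroup_iff] at h
  obtain ⟨ι, hι⟩ := hc
  exact hi.elim (real_of (ι := ι) (c := c) hι k h).some

/-- the maximal subfield on which `c` is central is the maximal abelian subfield -/
theorem central_eq {k K : IntermediateField ℚ Qbar} (hk : finrank ℚ k = 2)
    (hi : IsEmpty (k →+* ℝ)) (hK : AbelianOver k K) {c : Gal(Qbar/ℚ)} (hc : ComplexConj c) (x : Qbar)
    (hx : x ∈ K) (h : ∀ g : Gal(Qbar/ℚ), c (g x) = g (c x)) (g h' : Gal(Qbar/ℚ)) :
    g (h' x) = h' (g x) := by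
  classical
  have hcn := not_fix hi hc
  have hcc := conj_conj hc
  obtain ⟨-, -, -, hab⟩ := hK
  have hdec : ∀ g : Gal(Qbar/ℚ), g ∈ k.fixingSubgroup ∨ ∃ a ∈ k.fixingSubgroup, g = c * a := by
    intro g
    by_cases hg : g ∈ k.fixingSubgroup
    · exact Or.inl hg
    · refine Or.inr ⟨c⁻¹ * g, (quad hk).2 c g hcn hg, ?_⟩
      rw [mul_inv_cancel_left]
  -- elements of `Gal(ℚ̄/k)` commute on `x` and `c x`
  have key : ∀ g : Gal(Qbar/ℚ), ∀ a ∈ k.fixingSubgroup, g (a x) = a (g x) := by
    intro g a ha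
    rcases hdec g with hg | ⟨b, hb, rfl⟩
    · exact hab g hg a ha x hx
    · rw [AlgEquiv.mul_apply, AlgEquiv.mul_apply, hab b hb a ha x hx]
      have h1 := h (a * b)
      have h2 := h b
      rw [AlgEquiv.mul_apply, AlgEquiv.mul_apply] at h1
      rw [h1, h2]
  rcases hdec h' with hh | ⟨b, hb, rfl⟩
  · exact key g h' hh
  · rw [AlgEquiv.mul_apply, AlgEquiv.mul_apply]
    rcases hdec g with hg | ⟨a, ha, rfl⟩
    · have h1 := h (g * b)
      have h2 := key (g * c) b hb
      have h3 := key c b hb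
      have h4 := h b
      have h5 := h g
      rw [AlgEquiv.mul_apply] at h1 h2
      rw [AlgEquiv.mul_apply] at h1 h2
      rw [h2, ← h5]
      have h6 := h (b * g)
      rw [AlgEquiv.mul_apply, AlgEquiv.mul_apply, ← h5] at h6
      exact h6.symm
    · rw [AlgEquiv.mul_apply, AlgEquiv.mul_apply]
      have h1 := h (a * b)
      have h2 := h (b * a)
      have h3 := hab a ha b hb x hx
      have h4 := h a
      have h5 := h b
      rw [AlgEquiv.mul_apply, AlgEquiv.mul_apply] at h1 h2
      have h6 : a (c (b x)) = c (a (b x)) := by rw [h5, ← h1]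
      have h7 : b (c (a x)) = c (b (a x)) := by rw [h4, ← h2]
      rw [h6, h7, h3]

theorem part_one {p : ℕ} (hp : p.Prime) {k : IntermediateField ℚ Qbar} (hk : finrank ℚ k = 2)
    (hi : IsEmpty (k →+* ℝ)) {K : IntermediateField ℚ Qbar} (hK : AbelianOver k K)
    (hG : IsGalois ℚ K) {c : Gal(Qbar/ℚ)} (hc : ComplexConj c) {K₁ K₂ : IntermediateField ℚ Qbar}
    (h1 : IsFixed c K K₁) (h2 : IsAbelianPart K K₂) :
    MuZ inertia p K ↔ MuZ inertia p K₁ ∧ MuZ inertia p K₂ := by
  have e1 : K₁ = cfix K c := by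
    ext x
    rw [mem_cfix]
    exact h1 x
  have e2 : K₂ = cpart K c := by
    ext x
    rw [mem_cpart, h2 x]
    refine and_congr_right fun hx => ⟨fun h g => h c g, fun h g g' => ?_⟩
    exact central_eq hk hi hK hc x hx h g g'
  rw [e1, e2]
  exact inv_iff localCond hp K hK.1 hG c fun x _ => conj_conj hc x


theorem imq (p : ℕ) (hp : p.Prime) (k : IntermediateField ℚ Qbar) (hk : finrank ℚ k = 2)
    (hi : IsEmpty (k →+* ℝ)) (c : Gal(Qbar/ℚ)) (hc : ComplexConj c) :
    (∀ K K₁ K₂ : IntermediateField ℚ Qbar, AbelianOver k K → IsGalois ℚ K → IsFixed c K K₁ →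
      IsAbelianPart K K₂ → (MuZ inertia p K ↔ MuZ inertia p K₁ ∧ MuZ inertia p K₂)) ∧
    ((∀ K, AbelianOver k K → MuZ inertia p K) ↔
      (∀ K K₁, AbelianOver k K → IsGalois ℚ K → IsFixed c K K₁ → MuZ inertia p K₁) ∧
      (∀ E, AbelianOver ⊥ E → MuZ inertia p E)) := by
  have hpf : Fact p.Prime := ⟨hp⟩
  refine ⟨fun K K₁ K₂ hK hG h1 h2 => part_one hp hk hi hK hG hc h1 h2, fun h => ⟨?_, ?_⟩, ?_⟩
  · intro K K₁ hK hG h1
    refine mu_of_le hp K hK.1 hG (h K hK) K₁ fun x hx => ((h1 x).1 hx).1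
  · rintro E ⟨hE, -, hs, hab⟩
    have htop : (⊥ : IntermediateField ℚ Qbar).fixingSubgroup = ⊤ :=
      IntermediateField.fixingSubgroup_bot
    have hkf : FiniteDimensional ℚ k := FiniteDimensional.of_finrank_pos (by rw [hk]; norm_num)
    have hs' : ∀ (σ : Gal(Qbar/ℚ)), ∀ x ∈ E, σ x ∈ E := fun σ x hx =>
      hs σ (by rw [htop]; trivial) x hx
    have hab' : ∀ (σ τ : Gal(Qbar/ℚ)), ∀ x ∈ E, σ (τ x) = τ (σ x) := fun σ τ x hx =>
      hab σ (by rw [htop]; trivial) τ (by rw [htop]; trivial) x hx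
    have hfixE : E.fixingSubgroup.Normal := by
      refine ⟨fun n hn g => ?_⟩
      rw [IntermediateField.mem_fixingSubgroup_iff] at hn ⊢
      intro x hx
      rw [AlgEquiv.mul_apply, AlgEquiv.mul_apply, hn _ (hs' _ x hx), ← AlgEquiv.mul_apply,
        mul_inv_cancel, AlgEquiv.one_apply]
    have hfixk := (quad hk).1
    have hGal : IsGalois ℚ ↥(E ⊔ k) := by
      refine (InfiniteGalois.normal_iff_isGalois _).1 ?_
      rw [IntermediateField.fixingSubgroup_sup]
      infer_instance
    have habk : AbelianOver k (E ⊔ k) := by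
      refine ⟨inferInstance, le_sup_right, ?_, ?_⟩
      · intro σ _ x hx
        have h3 : (E ⊔ k).fixingSubgroup.Normal := (InfiniteGalois.normal_iff_isGalois _).2 hGal
        rw [← InfiniteGalois.fixedField_fixingSubgroup (E ⊔ k),
          IntermediateField.mem_fixedField_iff] at hx ⊢
        intro n hn
        have h4 := hx _ (h3.conj_mem n hn σ⁻¹)
        rw [inv_inv, AlgEquiv.mul_apply, AlgEquiv.mul_apply] at h4
        have h5 := congrArg σ h4
        rw [← AlgEquiv.mul_apply, mul_inv_cancel, AlgEquiv.one_apply] at h5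
        exact h5
      · intro σ hσ τ hτ x hx
        have h3 : (τ * σ)⁻¹ * (σ * τ) ∈ (E ⊔ k).fixingSubgroup := by
          rw [IntermediateField.fixingSubgroup_sup]
          refine Subgroup.mem_inf.2 ⟨(IntermediateField.mem_fixingSubgroup_iff _ _).2 fun y hy => ?_,
            k.fixingSubgroup.mul_mem (k.fixingSubgroup.inv_mem (k.fixingSubgroup.mul_mem hτ hσ))
              (k.fixingSubgroup.mul_mem hσ hτ)⟩
          rw [AlgEquiv.mul_apply, AlgEquiv.mul_apply, hab' σ τ y hy]
          have h6 : τ (σ y) = (τ * σ) y := rfl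
          rw [h6, ← AlgEquiv.mul_apply, inv_mul_cancel, AlgEquiv.one_apply]
        have h4 := (IntermediateField.mem_fixingSubgroup_iff _ _).1 h3 x hx
        rw [AlgEquiv.mul_apply] at h4
        have h5 := congrArg (τ * σ) h4
        rw [← AlgEquiv.mul_apply, mul_inv_cancel, AlgEquiv.one_apply] at h5
        exact h5
    exact mu_of_le hp _ habk.1 hGal (h _ habk) E le_sup_left
  · rintro ⟨h1, h2⟩ K hK
    obtain ⟨hKf, hkK, hst, hab⟩ := hK
    -- the normal closure of `K`
    have hUf : K.fixingSubgroup.FiniteIndex := ⟨index_ne_zero' K⟩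
    set U := K.fixingSubgroup.normalCore with hUdef
    have hUn : U.Normal := Subgroup.normalCore_normal _
    have hUo : IsOpen (U : Set Gal(Qbar/ℚ)) :=
      isOpen_normalCore K.fixingSubgroup_isOpen (index_ne_zero' K)
    have hUi : U.index ≠ 0 := by
      have : U.FiniteIndex := K.fixingSubgroup.finiteIndex_normalCore
      exact Subgroup.FiniteIndex.index_ne_zero
    have hfix : (IntermediateField.fixedField U).fixingSubgroup = U := fix_fixed hUo
    have hNd := finite_fixed hUo hUi
    have hKN : K ≤ IntermediateField.fixedField U := (IntermediateField.le_iff_le _ _).2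
      (Subgroup.normalCore_le _)
    have hNn : IsGalois ℚ (IntermediateField.fixedField U) :=
      (InfiniteGalois.normal_iff_isGalois (IntermediateField.fixedField U)).1
        (by rw [hfix]; exact hUn)
    have hkn := (quad hk).1
    have hN : AbelianOver k (IntermediateField.fixedField U) := by
      refine ⟨hNd, hkK.trans hKN, ?_, ?_⟩
      · intro σ _ x hx
        rw [IntermediateField.mem_fixedField_iff] at hx ⊢
        intro n hn
        have h4 := hx _ (hUn.conj_mem n hn σ⁻¹)
        rw [inv_inv, AlgEquiv.mul_apply, AlgEquiv.mul_apply] at h4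
        have h5 := congrArg σ h4
        rw [← AlgEquiv.mul_apply, mul_inv_cancel, AlgEquiv.one_apply] at h5
        exact h5
      · intro σ hσ τ hτ x hx
        have h3 : (τ * σ)⁻¹ * (σ * τ) ∈ U := by
          intro g
          rw [IntermediateField.mem_fixingSubgroup_iff]
          intro y hy
          have hσ' := hkn.conj_mem σ hσ g
          have hτ' := hkn.conj_mem τ hτ g
          have h6 := hab _ hσ' _ hτ' y hy
          have h7 : g * ((τ * σ)⁻¹ * (σ * τ)) * g⁻¹ =
              ((g * τ * g⁻¹) * (g * σ * g⁻¹))⁻¹ * ((g * σ * g⁻¹) * (g * τ * g⁻¹)) := by group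
          rw [h7, AlgEquiv.mul_apply]
          have h8 : ((g * σ * g⁻¹) * (g * τ * g⁻¹)) y = ((g * τ * g⁻¹) * (g * σ * g⁻¹)) y := h6
          rw [h8, ← AlgEquiv.mul_apply, inv_mul_cancel, AlgEquiv.one_apply]
        have h4 := (IntermediateField.mem_fixedField_iff _ _).1 hx _ h3
        rw [AlgEquiv.mul_apply] at h4
        have h5 := congrArg (τ * σ) h4
        rw [← AlgEquiv.mul_apply, mul_inv_cancel, AlgEquiv.one_apply] at h5
        exact h5
    refine mu_of_le hp _ hNd hNn ?_ K hKN
    -- the abelian part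
    have hab2 : IsAbelianPart (IntermediateField.fixedField U)
        (cpart (IntermediateField.fixedField U) c) := by
      intro x
      rw [mem_cpart]
      refine and_congr_right fun hx => ⟨fun h g g' => ?_, fun h g => h c g⟩
      exact central_eq hk hi hN hc x hx h g g'
    refine (part_one hp hk hi hN hNn hc (K₁ := cfix (IntermediateField.fixedField U) c)
      (fun x => mem_cfix) hab2).2 ⟨h1 _ _ hN hNn fun x => mem_cfix, h2 _ ?_⟩
    refine ⟨?_, bot_le, ?_, ?_⟩
    · have hle : cpart (IntermediateField.fixedField U) c ≤ IntermediateField.fixedField U :=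
        inf_le_left
      exact Submodule.finiteDimensional_of_le
        (S₁ := Subalgebra.toSubmodule (cpart (IntermediateField.fixedField U) c).toSubalgebra)
        (S₂ := Subalgebra.toSubmodule (IntermediateField.fixedField U).toSubalgebra) hle
    · intro σ _ x hx
      rw [mem_cpart] at hx ⊢
      refine ⟨?_, fun g => ?_⟩
      · obtain ⟨hx1, -⟩ := hx
        rw [IntermediateField.mem_fixedField_iff] at hx1 ⊢
        intro n hn
        have h4 := hx1 _ (hUn.conj_mem n hn σ⁻¹)
        rw [inv_inv, AlgEquiv.mul_apply, AlgEquiv.mul_apply] at h4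
        have h5 := congrArg σ h4
        rw [← AlgEquiv.mul_apply, mul_inv_cancel, AlgEquiv.one_apply] at h5
        exact h5
      · have h3 := hx.2 (g * σ)
        have h4 := hx.2 σ
        rw [AlgEquiv.mul_apply, AlgEquiv.mul_apply] at h3
        rw [h3, h4]
    · intro σ _ τ _ x hx
      exact ((hab2 x).1 hx).2 σ τ

end Pool.Agent.N810.MU.ImQ
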