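import Pool.Agent.N810.MU.Gen

/-! Involutions. -/

set_option autoImplicit false

namespace Pool.Agent.N810.MU

open NumberField Pool.Agent.Q60.MU Module Subgroup
open scoped Pointwise

/-- the subfield of `N` fixed by `c` -/
noncomputable def cfix (N : IntermediateField ℚ Qb) (c : Gal(Qb/ℚ)) : IntermediateField ℚ Qb :=
  N ⊓ IntermediateField.fixedField (zpowers c)

/-- the largest subfield of `N`, Galois over `ℚ`, on which `c` commutes with all automorphisms -/
noncomputable def cpart (N : IntermediateField ℚ Qb) (c : Gal(Qb/ℚ)) : IntermediateField ℚ Qb :=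
  N ⊓ { carrier := {x | ∀ g : Gal(Qb/ℚ), c (g x) = g (c x)}
        mul_mem' := fun {x y} hx hy g => by rw [map_mul, map_mul, map_mul, map_mul, hx g, hy g]
        add_mem' := fun {x y} hx hy g => by rw [map_add, map_add, map_add, map_add, hx g, hy g]
        algebraMap_mem' := fun q g => by
          rw [AlgEquiv.commutes, AlgEquiv.commutes, AlgEquiv.commutes]
        inv_mem' := fun x hx g => by rw [map_inv₀, map_inv₀, map_inv₀, map_inv₀, hx g] }

theorem mem_cfix {N : IntermediateField ℚ Qb} {c : Gal(Qb/ℚ)} {x : Qb} :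
    x ∈ cfix N c ↔ x ∈ N ∧ c x = x := by
  constructor
  · rintro ⟨h1, h2⟩
    exact ⟨h1, (IntermediateField.mem_fixedField_iff _ _).1 h2 c (mem_zpowers c)⟩
  · rintro ⟨h1, h2⟩
    refine ⟨h1, (IntermediateField.mem_fixedField_iff _ _).2 ?_⟩
    have h3 : zpowers c ≤ MulAction.stabilizer Gal(Qb/ℚ) x := by
      rw [zpowers_le]
      exact h2
    exact fun g hg => h3 hg

theorem mem_cpart {N : IntermediateField ℚ Qb} {c : Gal(Qb/ℚ)} {x : Qb} :
    x ∈ cpart N c ↔ x ∈ N ∧ ∀ g : Gal(Qb/ℚ), c (g x) = g (c x) := Iff.rfl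

section

variable {p : ℕ} {S : Type} [AddCommGroup S] [Module (ZMod p) S]

theorem inv_or (τ : Representation (ZMod p) Gal(Qb/ℚ) S) (c : Gal(Qb/ℚ))
    (hc : ∀ x, τ c (τ c x) = x) : (∃ v : S, v ≠ 0 ∧ τ c v = v) ∨ ∀ v, τ c v = -v := by
  by_cases h : ∀ v, τ c v = -v
  · exact Or.inr h
  · push Not at h
    obtain ⟨v, hv⟩ := h
    refine Or.inl ⟨τ c v + v, fun h => hv (eq_neg_of_add_eq_zero_left h), ?_⟩
    rw [map_add, hc, add_comm]

theorem fixing_le (hp : p.Prime) {N : IntermediateField ℚ Qb} [FiniteDimensional ℚ N]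
    (τ : Representation (ZMod p) Gal(Qb/ℚ) S) (hτ : ∀ g ∈ N.fixingSubgroup, ∀ x, τ g x = x)
    (v : S) {E : IntermediateField ℚ Qb}
    (h : haveI : Fact p.Prime := ⟨hp⟩; IntermediateField.fixedField (stab τ v) ≤ E) :
    ∀ g ∈ E.fixingSubgroup, τ g v = v := by
  have hpf : Fact p.Prime := ⟨hp⟩
  have h1 : IsOpen (stab τ v : Set Gal(Qb/ℚ)) :=
    Subgroup.isOpen_mono (fun g hg => hτ g hg v) N.fixingSubgroup_isOpen
  have h2 := IntermediateField.fixingSubgroup_le h
  rw [fix_fixed h1] at h2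
  exact fun g hg => h2 hg

theorem stab_le_N (hp : p.Prime) {N : IntermediateField ℚ Qb}
    (τ : Representation (ZMod p) Gal(Qb/ℚ) S) (hτ : ∀ g ∈ N.fixingSubgroup, ∀ x, τ g x = x) (v : S) :
    haveI : Fact p.Prime := ⟨hp⟩
    IntermediateField.fixedField (stab τ v) ≤ N := by
  have hpf : Fact p.Prime := ⟨hp⟩
  rw [← InfiniteGalois.fixedField_fixingSubgroup N]
  exact IntermediateField.fixedField_antitone fun g hg => hτ g hg v

theorem comm_of_neg (hp : p.Prime) (τ : Representation (ZMod p) Gal(Qb/ℚ) S) (c : Gal(Qb/ℚ))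
    (h : ∀ v, τ c v = -v) (v : S) : haveI : Fact p.Prime := ⟨hp⟩
    ∀ x ∈ IntermediateField.fixedField (stab τ v), ∀ g : Gal(Qb/ℚ), c (g x) = g (c x) := by
  have hpf : Fact p.Prime := ⟨hp⟩
  intro x hx g
  have h1 : (g * c)⁻¹ * (c * g) ∈ stab τ v := by
    show τ ((g * c)⁻¹ * (c * g)) v = v
    have h2 : τ (c * g) v = τ (g * c) v := by
      rw [map_mul, map_mul, Module.End.mul_apply, Module.End.mul_apply, h, h, map_neg]
    rw [map_mul, Module.End.mul_apply, h2, ← Module.End.mul_apply, ← map_mul, inv_mul_cancel,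
      map_one, Module.End.one_apply]
  have h2 := (IntermediateField.mem_fixedField_iff _ _).1 hx _ h1
  rw [AlgEquiv.mul_apply] at h2
  have h3 := congrArg (g * c) h2
  rw [← AlgEquiv.mul_apply, mul_inv_cancel, AlgEquiv.one_apply] at h3
  exact h3

end

/-- **Involutions.** -/
theorem inv_iff {J : ValuationSubring Qb → Subgroup Gal(Qb/ℚ)} (hJ : LocalCond J) {p : ℕ}
    (hp : p.Prime) (N : IntermediateField ℚ Qb) (hN : FiniteDimensional ℚ N) (hNn : IsGalois ℚ N)
    (c : Gal(Qb/ℚ)) (hc : ∀ x ∈ N, c (c x) = x) :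
    MuZ J p N ↔ MuZ J p (cfix N c) ∧ MuZ J p (cpart N c) := by
  constructor
  · intro h
    exact ⟨mu_of_le hp N hN hNn h _ inf_le_left, mu_of_le hp N hN hNn h _ inf_le_left⟩
  · rintro ⟨h1, h2⟩
    refine detect hJ hp N hN hNn {cfix N c, cpart N c} ?_ ?_ ?_ N le_rfl
    · rintro E (rfl | rfl)
      · exact inf_le_left
      · exact inf_le_left
    · intro S _ _ _ τ hτ hs
      have hcc : c * c ∈ N.fixingSubgroup := (IntermediateField.mem_fixingSubgroup_iff _ _).2 hc
      have hc2 : ∀ x, τ c (τ c x) = x := by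
        intro x
        have h3 := hτ _ hcc x
        rwa [map_mul, Module.End.mul_apply] at h3
      rcases inv_or τ c hc2 with ⟨v, hv, hcv⟩ | h
      · refine ⟨_, Or.inl rfl, v, hv, fixing_le hp τ hτ v ?_⟩
        intro x hx
        rw [mem_cfix]
        refine ⟨stab_le_N hp τ hτ v hx, (IntermediateField.mem_fixedField_iff _ _).1 hx c hcv⟩
      · have hnt : Nontrivial S := hs.1
        obtain ⟨v, hv⟩ := exists_ne (0 : S)
        refine ⟨_, Or.inr rfl, v, hv, fixing_le hp τ hτ v ?_⟩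
        intro x hx
        rw [mem_cpart]
        exact ⟨stab_le_N hp τ hτ v hx, comm_of_neg hp τ c h v x hx⟩
    · rintro E (rfl | rfl)
      · exact h1
      · exact h2

end Pool.Agent.N810.MU
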