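import Pool.Agent.N810.MU.Inv

/-! Number fields with a real place and CM fields suffice. -/

set_option autoImplicit false

namespace Pool.Agent.N810.MU

open Pool.Agent.Q60.MU Module Subgroup
open scoped Pointwise

/-- A field with a nontrivial automorphism which induces complex conjugation in all embeddings is a
CM field. -/
theorem isCM_of {K : Type} [Field K] [CharZero K] (s : RingAut K) (hs : s ≠ 1)
    (h : ∀ (φ : K →+* ℂ) (x : K), φ (s x) = star (φ x)) (hne : Nonempty (K →+* ℂ)) :
    NumberField.IsCMField K := by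
  classical
  obtain ⟨φ₀⟩ := hne
  have hss : s * s = 1 := by
    ext x
    apply φ₀.injective
    rw [RingAut.mul_apply, h, h, star_star, RingAut.one_apply]
  have hord : orderOf s = 2 := orderOf_eq_prime (by rw [pow_two]; exact hss) hs
  have hcard : Nat.card (zpowers s) = 2 := by rw [Nat.card_zpowers, hord]
  have hfin : Finite (zpowers s) := Nat.finite_of_card_ne_zero (by rw [hcard]; norm_num)
  have hft : Fintype (zpowers s) := Fintype.ofFinite _
  have hmem : ∀ x : K, x ∈ FixedPoints.subfield (zpowers s) K ↔ s x = x := by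
    intro x
    constructor
    · intro hx
      exact hx ⟨s, mem_zpowers s⟩
    · rintro hx ⟨g, hg⟩
      have h3 : zpowers s ≤ MulAction.stabilizer (RingAut K) x := by
        rw [zpowers_le]
        exact hx
      exact h3 hg
  have heq : NumberField.maximalRealSubfield K = FixedPoints.subfield (zpowers s) K := by
    ext x
    rw [hmem, NumberField.mem_maximalRealSubfield_iff]
    constructor
    · intro hx
      apply φ₀.injective
      rw [h, hx]
    · intro hx φ
      rw [← h, hx]
  have hrank : finrank (FixedPoints.subfield (zpowers s) K) K = 2 := by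
    rw [FixedPoints.finrank_eq_card, ← Nat.card_eq_fintype_card, hcard]
  have htc : NumberField.IsTotallyComplex K := by
    refine ⟨fun v => ?_⟩
    rw [← NumberField.InfinitePlace.not_isReal_iff_isComplex]
    intro hv
    apply hs
    ext x
    have h1 := NumberField.InfinitePlace.isReal_iff.1 hv
    have h2 := congrArg (fun f : K →+* ℂ => f x) (NumberField.ComplexEmbedding.isReal_iff.1 h1)
    have h3 : star (v.embedding x) = v.embedding x := h2
    apply v.embedding.injective
    rw [h, h3, RingAut.one_apply]
  have hq : Algebra.IsQuadraticExtension (NumberField.maximalRealSubfield K) K := by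
    rw [heq]
    exact ⟨hrank⟩
  exact ⟨⟩

/-- embeddings of `ℚ̄` -/
theorem exists_gal (ι φ : Qb →+* ℂ) : ∃ g : Gal(Qb/ℚ), ∀ x, ι (g x) = φ x := by
  let _ : Algebra Qb ℂ := ι.toAlgebra
  have htow : IsScalarTower ℚ Qb ℂ := .of_algebraMap_eq fun q => by simp
  have hG := isGalois_Qb
  refine ⟨(φ.toRatAlgHom.restrictNormal' Qb), fun x => ?_⟩
  exact AlgHom.restrictNormal_commutes φ.toRatAlgHom Qb x

theorem exists_ext (ι : Qb →+* ℂ) (F : IntermediateField ℚ Qb) (φ : F →+* ℂ) :
    ∃ g : Gal(Qb/ℚ), ∀ x : F, ι (g x) = φ x := by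
  let _ : Algebra F ℂ := φ.toAlgebra
  have halg : Algebra.IsAlgebraic F Qb := by
    have := isAlg_Qb
    exact Algebra.IsAlgebraic.tower_top (K := ℚ) F
  let ψ : Qb →ₐ[F] ℂ := IsAlgClosed.lift
  obtain ⟨g, hg⟩ := exists_gal ι ψ.toRingHom
  refine ⟨g, fun x => ?_⟩
  rw [hg]
  exact ψ.commutes x

theorem real_of {ι : Qb →+* ℂ} {c : Gal(Qb/ℚ)} (hc : ∀ x, ι (c x) = star (ι x))
    (F : IntermediateField ℚ Qb) (hF : ∀ x ∈ F, c x = x) : Nonempty (F →+* ℝ) := by
  have him : ∀ x : F, (ι x).im = 0 := by
    intro x
    have h1 := hc x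
    rw [hF x x.2] at h1
    have h2 := congrArg Complex.im h1
    have h3 : (star (ι x)).im = -(ι x).im := Complex.conj_im _
    rw [h3] at h2
    linarith
  exact ⟨{ toFun := fun x => (ι x).re
           map_one' := by simp
           map_zero' := by simp
           map_add' := fun x y => by simp
           map_mul' := fun x y => by simp [Complex.mul_re, him] }⟩

/-- **Number fields with a real place and CM fields suffice.** -/
theorem real_cm {J : ValuationSubring Qb → Subgroup Gal(Qb/ℚ)} (hJ : LocalCond J) {p : ℕ}
    (hp : p.Prime) :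
    (∀ F : IntermediateField ℚ Qb, FiniteDimensional ℚ F → MuZ J p F) ↔
    (∀ F : IntermediateField ℚ Qb, FiniteDimensional ℚ F → Nonempty (F →+* ℝ) → MuZ J p F) ∧
    (∀ F : IntermediateField ℚ Qb, FiniteDimensional ℚ F → NumberField.IsCMField F →
      ¬ p ∣ finrank ℚ F → MuZ J p F) := by
  have hpf : Fact p.Prime := ⟨hp⟩
  refine ⟨fun h => ⟨fun F hF _ => h F hF, fun F hF _ _ => h F hF⟩, ?_⟩
  rintro ⟨hreal, hcm⟩ F hF
  -- complex conjugation
  obtain ⟨ι⟩ : Nonempty (Qb →+* ℂ) := by
    have := isAlg_Qb
    exact ⟨(IsAlgClosed.lift (R := ℚ) (S := Qb) (M := ℂ)).toRingHom⟩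
  obtain ⟨c, hc⟩ := exists_gal ι ((starRingEnd ℂ).comp ι)
  have hc : ∀ x, ι (c x) = star (ι x) := hc
  have hcc : c * c = 1 := by
    ext x
    apply ι.injective
    rw [AlgEquiv.mul_apply, hc, hc, star_star, AlgEquiv.one_apply]
  -- the normal closure
  have hUf : F.fixingSubgroup.FiniteIndex := ⟨index_ne_zero' F⟩
  set K := F.fixingSubgroup.normalCore with hKdef
  have hKn : K.Normal := normalCore_normal _
  have hKo : IsOpen (K : Set Gal(Qb/ℚ)) :=
    isOpen_normalCore F.fixingSubgroup_isOpen (index_ne_zero' F)
  have hKf : K.index ≠ 0 := by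
    have : K.FiniteIndex := F.fixingSubgroup.finiteIndex_normalCore
    exact FiniteIndex.index_ne_zero
  have hfix := fix_fixed hKo
  have hNd := finite_fixed hKo hKf
  have hFN : F ≤ IntermediateField.fixedField K := (IntermediateField.le_iff_le _ _).2
    (normalCore_le _)
  have hNn : IsGalois ℚ (IntermediateField.fixedField K) :=
    (InfiniteGalois.normal_iff_isGalois (IntermediateField.fixedField K)).1
      (by rw [hfix]; exact hKn)
  refine detect hJ hp (IntermediateField.fixedField K) hNd hNn
    {E | E ≤ IntermediateField.fixedField K ∧ MuZ J p E} (fun E hE => hE.1) ?_ (fun E hE => hE.2)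
    F hFN
  intro S _ _ _ τ hτ hs
  have hnt : Nontrivial S := hs.1
  have hleN : ∀ v, IntermediateField.fixedField (stab τ v) ≤ IntermediateField.fixedField K :=
    fun v => stab_le_N hp τ hτ v
  have hfd : ∀ v, FiniteDimensional ℚ (IntermediateField.fixedField (stab τ v)) := fun v =>
    Submodule.finiteDimensional_of_le
      (S₁ := Subalgebra.toSubmodule (IntermediateField.fixedField (stab τ v)).toSubalgebra)
      (S₂ := Subalgebra.toSubmodule (IntermediateField.fixedField K).toSubalgebra) (hleN v)
  have hle : ∀ v, K ≤ stab τ v := by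
    intro v g hg
    rw [hfix] at hτ
    exact hτ g hg v
  have hsf : ∀ v, (IntermediateField.fixedField (stab τ v)).fixingSubgroup = stab τ v :=
    fun v => fix_fixed (Subgroup.isOpen_mono (hle v) hKo)
  have hc2 : ∀ x, τ c (τ c x) = x := by
    intro x
    rw [← Module.End.mul_apply, ← map_mul, hcc, map_one, Module.End.one_apply]
  by_cases hex : ∃ v : S, v ≠ 0 ∧ τ c v = v
  · obtain ⟨v, hv, hcv⟩ := hex
    refine ⟨IntermediateField.fixedField (stab τ v), ⟨hleN v, hreal _ (hfd v) (real_of hc _ ?_)⟩,
      v, hv, ?_⟩
    · intro x hx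
      exact (IntermediateField.mem_fixedField_iff _ _).1 hx c hcv
    · rw [hsf]
      exact fun g hg => hg
  · have hneg : ∀ v, τ c v = -v := (inv_or τ c hc2).resolve_left hex
    rw [hfix] at hτ
    obtain ⟨v, hv, P, hP, hPp⟩ := exists_vec_P hKn hKf τ hτ
    refine ⟨IntermediateField.fixedField (stab τ v), ⟨hleN v, hcm _ (hfd v) ?_ ?_⟩, v, hv, ?_⟩
    · have hcomm := comm_of_neg hp τ c hneg v
      -- `c` preserves the field
      have hpres : ∀ x ∈ IntermediateField.fixedField (stab τ v),
          c x ∈ IntermediateField.fixedField (stab τ v) := by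
        intro x hx
        rw [IntermediateField.mem_fixedField_iff] at hx ⊢
        intro g hg
        rw [← hcomm x ((IntermediateField.mem_fixedField_iff _ _).2 hx) g, hx g hg]
      have hcx : ∀ x, c (c x) = x := fun x => by
        rw [← AlgEquiv.mul_apply, hcc, AlgEquiv.one_apply]
      let s : RingAut (IntermediateField.fixedField (stab τ v)) :=
        { toFun := fun x => ⟨c x, hpres x x.2⟩
          invFun := fun x => ⟨c x, hpres x x.2⟩
          left_inv := fun x => Subtype.ext (hcx x)
          right_inv := fun x => Subtype.ext (hcx x)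
          map_mul' := fun x y => Subtype.ext (map_mul c (x : Qb) y)
          map_add' := fun x y => Subtype.ext (map_add c (x : Qb) y) }
      refine isCM_of s ?_ ?_ ⟨ι.comp (algebraMap _ Qb)⟩
      · intro hs1
        apply hex
        refine ⟨v, hv, ?_⟩
        have h1 : c ∈ (IntermediateField.fixedField (stab τ v)).fixingSubgroup := by
          rw [IntermediateField.mem_fixingSubgroup_iff]
          intro x hx
          have h2 := congrArg (fun t : RingAut (IntermediateField.fixedField (stab τ v)) =>
            ((t ⟨x, hx⟩ : IntermediateField.fixedField (stab τ v)) : Qb)) hs1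
          exact h2
        rw [hsf] at h1
        exact h1
      · intro φ x
        obtain ⟨g, hg⟩ := exists_ext ι _ φ
        rw [← hg, ← hg]
        show ι (g (c x)) = _
        rw [← hcomm x x.2 g, hc]
    · rw [IntermediateField.finrank_eq_fixingSubgroup_index, hsf]
      exact fun h1 => hPp (h1.trans (index_dvd_of_le hP))
    · rw [hsf]
      exact fun g hg => hg

end Pool.Agent.N810.MU
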